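import Pool.Agent.H23.UT.Main

/-!
# The universal graph of diameter three: sentences with one universal quantifier before the last `∀ … ∀ ∃ … ∃`

For all `a, c, e, g` there is one finite graph `H` of diameter three which satisfies every statement
`∃ x₁ … x_a ∀ y ∃ z₁ … z_c ∀ w₁ … w_e ∃ v₁ … v_g θ` true in the universal graph of diameter three, where `θ` is any
condition on equality and adjacency of all the points, the distances among `x, y, z, w`, and the distances between
`x` and `v` (`EAEAE`, in `Pool.Agent.H23.UT.Defs`).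
-/

set_option autoImplicit false

open Pool.Agent.H23.UT

namespace Pool.Agent.Results.MP_0d9dc5_lc.DiameterThree

theorem result :
    ∀ G : SimpleGraph ℕ, G.Connected → G.ediam = 3 →
      (∀ (k : ℕ) (x y : Fin k → ℕ),
        (∀ i j, G.edist (x i) (x j) = G.edist (y i) (y j)) →
          ∃ σ : G ≃g G, ∀ i, σ (x i) = y i) →
      (∀ (n : ℕ) (H : SimpleGraph (Fin n)), H.Connected → H.ediam = 3 →
        ∃ f : Fin n → ℕ, ∀ a b, G.edist (f a) (f b) = H.edist a b) →
      ∀ a c e g : ℕ, ∃ (n : ℕ) (H : SimpleGraph (Fin n)), H.Connected ∧ H.ediam = 3 ∧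
        ∀ θ : (Pr a c e ⊕ Fin g → Pr a c e ⊕ Fin g → Prop) → (Pr a c e ⊕ Fin g → Pr a c e ⊕ Fin g → Prop) →
          (Pr a c e → Pr a c e → ℕ∞) → (Fin a → Fin g → ℕ∞) → Prop,
          EAEAE G a c e g θ → EAEAE H a c e g θ := by
  intro G h1 h2 h3 h4 a c e g
  exact main ⟨h1, h2, h3, h4⟩ a c e g

end Pool.Agent.Results.MP_0d9dc5_lc.DiameterThree
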