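import Pool.Agent.H33.UN.ASM

/-!
# The universal graph of diameter `N` and a finite folded cube

For every `N ≥ 1` the universal graph of diameter `N` and the folded cube `Gam N`, a graph with `16 ^ N`
vertices, satisfy the same sentences in which every subformula has at most three free variables, and the same
sentences of quantifier rank `m` in which every subformula has at most four free variables, if
`3 * 2 ^ m ≤ 16 * N`. In particular, if `N ≥ 3`, the same sentences of quantifier rank at most four.
-/

set_option autoImplicit false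

open FirstOrder Pool.Agent.H33.UN

namespace Pool.Agent.Results.MP_0d9dc5_lc.FoldedCubes

theorem result :
    ∀ N : ℕ, 1 ≤ N → ∀ G : SimpleGraph ℕ, G.Connected → G.ediam = (N : ℕ∞) →
      (∀ (k : ℕ) (x y : Fin k → ℕ),
        (∀ i j, G.edist (x i) (x j) = G.edist (y i) (y j)) →
          ∃ σ : G ≃g G, ∀ i, σ (x i) = y i) →
      (∀ (n : ℕ) (H : SimpleGraph (Fin n)), H.Connected → H.ediam = (N : ℕ∞) →
        ∃ f : Fin n → ℕ, ∀ a b, G.edist (f a) (f b) = H.edist a b) →
      ∀ φ : Language.graph.Sentence,
        (Width 3 φ ∨ (Width 4 φ ∧ 3 * 2 ^ qrank φ ≤ 16 * N) ∨ (3 ≤ N ∧ qrank φ ≤ 4)) →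
        (@Language.Sentence.Realize Language.graph ℕ G.structure φ ↔
          @Language.Sentence.Realize Language.graph (V N) (Gam N).structure φ) := by
  intro N hN G h1 h2 h3 h4 φ hφ
  refine main hN ⟨h1, h2, h3, h4⟩ φ ?_
  rcases hφ with h | h | ⟨h, hq⟩
  · exact Or.inl h
  · exact Or.inr h
  · refine Or.inr ⟨width_of_qrank φ (by omega), ?_⟩
    have : 2 ^ qrank φ ≤ 2 ^ 4 := Nat.pow_le_pow_right (by norm_num) hq
    omega

end Pool.Agent.Results.MP_0d9dc5_lc.FoldedCubes
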