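import Pool.Agent.H23.UT.MainN

/-!
# The universal graph of diameter `N`: all sentences `∃ … ∃ ∀ ∃ … ∃ ∀ … ∀` have finite models

For all `N ≥ 1` and all `a, c` there is one finite graph `H` of diameter `N` which satisfies every statement
`∃ x₁ … x_a ∀ y ∃ z₁ … z_c ∀ w₁ … w_e θ` (any `e`, a single `y`) true in the universal graph of diameter `N`, where
`θ` is any condition on the distances between the points (`EAEA`, in `Pool.Agent.H23.UT.DefsN`).
-/

set_option autoImplicit false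

open Pool.Agent.H23.UT

namespace Pool.Agent.Results.MP_0d9dc5_lc.OneUniversal

theorem result :
    ∀ N : ℕ, 1 ≤ N → ∀ G : SimpleGraph ℕ, G.Connected → G.ediam = (N : ℕ∞) →
      (∀ (k : ℕ) (x y : Fin k → ℕ),
        (∀ i j, G.edist (x i) (x j) = G.edist (y i) (y j)) →
          ∃ σ : G ≃g G, ∀ i, σ (x i) = y i) →
      (∀ (n : ℕ) (H : SimpleGraph (Fin n)), H.Connected → H.ediam = (N : ℕ∞) →
        ∃ f : Fin n → ℕ, ∀ a b, G.edist (f a) (f b) = H.edist a b) →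
      ∀ a c : ℕ, ∃ (n : ℕ) (H : SimpleGraph (Fin n)), H.Connected ∧ H.ediam = (N : ℕ∞) ∧
        ∀ (e : ℕ) (θ : (Fin a ⊕ Fin 1 ⊕ Fin c ⊕ Fin e → Fin a ⊕ Fin 1 ⊕ Fin c ⊕ Fin e → ℕ∞) → Prop),
          EAEA G a c e θ → EAEA H a c e θ := by
  intro N _ G h1 h2 h3 h4 a c
  exact mainN ⟨h1, h2, h3, h4⟩ a c

end Pool.Agent.Results.MP_0d9dc5_lc.OneUniversal
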