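import Pool.Agent.H23.US.Main

/-!
# The universal graph of diameter `N`: all sentences `∃ … ∃ ∀ … ∀ ∃ … ∃` have finite models

For every `N ≥ 2` and all `a, b, c` there is one finite graph `H` of diameter `N` which satisfies every statement
`∃ x₁ … x_a ∀ y₁ … y_b ∃ z₁ … z_c θ` true in the universal graph of diameter `N`, where `θ` is any condition on
equality and adjacency of all the points, the distances among `x, y`, and the distances between `x` and `z`
(`EAE`, in `Pool.Agent.H23.US.Defs`).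
-/

set_option autoImplicit false

open Pool.Agent.H23.US

namespace Pool.Agent.Results.MP_0d9dc5_lc.SigmaThree

theorem result :
    ∀ N : ℕ, 2 ≤ N → ∀ G : SimpleGraph ℕ, G.Connected → G.ediam = (N : ℕ∞) →
      (∀ (k : ℕ) (x y : Fin k → ℕ),
        (∀ i j, G.edist (x i) (x j) = G.edist (y i) (y j)) →
          ∃ σ : G ≃g G, ∀ i, σ (x i) = y i) →
      (∀ (n : ℕ) (H : SimpleGraph (Fin n)), H.Connected → H.ediam = (N : ℕ∞) →
        ∃ f : Fin n → ℕ, ∀ a b, G.edist (f a) (f b) = H.edist a b) →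
      ∀ a b c : ℕ, ∃ (n : ℕ) (H : SimpleGraph (Fin n)), H.Connected ∧ H.ediam = (N : ℕ∞) ∧
        ∀ θ : (Pl a b c → Pl a b c → Prop) → (Pl a b c → Pl a b c → Prop) →
          (Fin a ⊕ Fin b → Fin a ⊕ Fin b → ℕ∞) → (Fin a → Fin c → ℕ∞) → Prop,
          EAE G a b c θ → EAE H a b c θ := by
  intro N hN G h1 h2 h3 h4 a b c
  exact main hN ⟨h1, h2, h3, h4⟩ a b c

end Pool.Agent.Results.MP_0d9dc5_lc.SigmaThree
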